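import Pool.Agent.H.MP_0f8a1e_an.J

set_option linter.unusedSectionVars false
set_option linter.unusedVariables false
set_option linter.dupNamespace false

namespace Pool.Agent.H.MP_e4c1d4_an

open Filter Topology Set Metric Real MeasureTheory intervalIntegral

lemma cst {f : ℝ → ℝ} (h : ∀ t > 0, HasDerivAt f 0 t) : ∃ a, ∀ t > 0, f t = a :=
  ⟨f 1, fun t ht => isOpen_Ioi.is_const_of_deriv_eq_zero isPreconnected_Ioi
    (fun s hs => (h s hs).differentiableAt.differentiableWithinAt) (fun s hs => (h s hs).deriv) ht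
    (mem_Ioi.2 one_pos)⟩

lemma ode {A A1 G : ℝ → ℝ} (cA : Continuous A) (cG : Continuous G) (A0 : A 0 = 0)
    (h1 : ∀ t > 0, HasDerivAt A (A1 t) t) (h2 : ∀ t > 0, HasDerivAt A1 (-A t - G t) t) :
    ∃ α, ∀ t ≥ 0, A t = α * sin t - ∫ σ in 0..t, sin (t - σ) * G σ := by
  have c1 : Continuous fun σ => cos σ * G σ := by fun_prop
  have c2 : Continuous fun σ => sin σ * G σ := by fun_prop
  have hP := fun t => (c1.integral_hasStrictDerivAt 0 t).hasDerivAt
  have hQ := fun t => (c2.integral_hasStrictDerivAt 0 t).hasDerivAt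
  obtain ⟨α, ha⟩ := cst fun t ht => ((((h2 t ht).fun_mul (hasDerivAt_cos t)).fun_add
    ((h1 t ht).fun_mul (hasDerivAt_sin t))).fun_add (hP t)).congr_deriv (by ring)
  obtain ⟨β, hb⟩ := cst fun t ht => ((((h2 t ht).fun_mul (hasDerivAt_sin t)).fun_sub
    ((h1 t ht).fun_mul (hasDerivAt_cos t))).fun_add (hQ t)).congr_deriv (by ring)
  have e : ∀ t > 0, A t = (α - ∫ σ in 0..t, cos σ * G σ) * sin t -
      (β - ∫ σ in 0..t, sin σ * G σ) * cos t := fun t ht => by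
    rw [← ha t ht, ← hb t ht]
    linear_combination (-A t) * sin_sq_add_cos_sq t
  have cP : Continuous fun t => ∫ σ in 0..t, cos σ * G σ :=
    continuous_iff_continuousAt.2 fun t => (hP t).continuousAt
  have cQ : Continuous fun t => ∫ σ in 0..t, sin σ * G σ :=
    continuous_iff_continuousAt.2 fun t => (hQ t).continuousAt
  have e' : ∀ t ≥ 0, A t = (α - ∫ σ in 0..t, cos σ * G σ) * sin t -
      (β - ∫ σ in 0..t, sin σ * G σ) * cos t := fun t ht =>
    (closure_minimal (s := Ioi 0) e (isClosed_eq cA (by fun_prop))) (by rwa [closure_Ioi])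
  have b0 : β = 0 := by simpa [A0] using e' 0 le_rfl
  refine ⟨α, fun t ht => ?_⟩
  have : ∀ σ, sin (t - σ) * G σ = sin t * (cos σ * G σ) - cos t * (sin σ * G σ) := fun σ => by
    rw [sin_sub]; ring
  simp_rw [this]
  rw [e' t ht, integral_sub ((c1.const_mul _).intervalIntegrable _ _)
    ((c2.const_mul _).intervalIntegrable _ _), intervalIntegral.integral_const_mul,
    intervalIntegral.integral_const_mul, b0]
  ring

lemma duh {G F : ℝ → ℝ} {t : ℝ} (ht : 0 ≤ t) (h : ∀ σ ∈ Icc 0 t, |G σ| ≤ F σ)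
    (cF : ContinuousOn F (Icc 0 t)) :
    |∫ σ in 0..t, sin (t - σ) * G σ| ≤ ∫ σ in 0..t, (t - σ) * F σ :=
  norm_integral_le_of_norm_le ht (.of_forall fun σ hσ => by
    rw [Real.norm_eq_abs, abs_mul]
    exact mul_le_mul (abs_sin_le_abs.trans_eq (abs_of_nonneg (by linarith [hσ.2])))
      (h σ (Ioc_subset_Icc_self hσ)) (abs_nonneg _) (by linarith [hσ.2]))
    ((ContinuousOn.mul (f := fun σ => t - σ) (by fun_prop) cF).intervalIntegrable_of_Icc ht)

lemma duh0 {G : ℝ → ℝ} {t K : ℝ} (ht : 0 ≤ t) (h : ∀ σ ∈ Icc 0 t, |G σ| ≤ K) :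
    |∫ σ in 0..t, sin (t - σ) * G σ| ≤ K * t ^ 2 := by
  have K0 : 0 ≤ K := (abs_nonneg _).trans (h 0 ⟨le_rfl, ht⟩)
  refine (duh ht h continuousOn_const).trans ?_
  rw [intervalIntegral.integral_mul_const, integral_comp_sub_left (fun x => x) t, integral_id]
  nlinarith [mul_nonneg K0 (sq_nonneg t)]

lemma small (A : ℝ) {B : ℝ} (h : 0 < B) : ∃ η, 0 < η ∧ η ≤ 1 ∧ η * A < B := by
  have : ∀ᶠ η in 𝓝[>] (0 : ℝ), η * A < B :=
    ((continuous_id.mul continuous_const).continuousAt.eventually_lt continuousAt_const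
      (by simpa)).filter_mono nhdsWithin_le_nhds
  obtain ⟨η, h1, h2⟩ := (this.and (Ioc_mem_nhdsGT one_pos)).exists
  exact ⟨η, h2.1, h2.2, h1⟩

lemma pos {A : ℝ → ℝ} {α K K' : ℝ} (K0 : 0 ≤ K') (h : ∀ t ∈ Icc (0 : ℝ) 1, |A t - α * sin t| ≤ K * t ^ 2)
    (h' : ∀ t ∈ Icc (0 : ℝ) 1, (cos t - 1) * K' ≤ A t) : 0 ≤ α := by
  by_contra hα
  rw [not_le] at hα
  obtain ⟨t, t0, t1, ht⟩ := small (K + K') (B := -α / 2) (by linarith)
  have a1 := (abs_le.1 (h t ⟨t0.le, t1⟩)).2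
  have a2 := h' t ⟨t0.le, t1⟩
  have a3 := sin_gt_sub_cube t0
  have a4 := mul_le_mul_of_nonneg_right (one_sub_sq_div_two_le_cos (x := t)) K0
  have a5 : t / 2 ≤ sin t := by nlinarith [mul_le_mul t1 t1 t0.le zero_le_one, mul_pos t0 t0]
  have a6 := mul_le_mul_of_nonpos_left a5 hα.le
  have a7 := mul_lt_mul_of_pos_left ht t0
  nlinarith [mul_nonneg K0 (sq_nonneg t)]

lemma qint {T t : ℝ} (T0 : 0 < T) (t0 : 0 ≤ t) (tT : t ≤ T) (b : ℕ) :
    ∫ σ in 0..t, (t - σ) * (b * (b + 1) * ((1 - σ / (2 * T))⁻¹) ^ (b + 2)) ≤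
      4 * T ^ 2 * ((1 - t / (2 * T))⁻¹) ^ b := by
  have p : ∀ σ ∈ uIcc 0 t, 0 < 1 - σ / (2 * T) := fun σ hσ => by
    rw [uIcc_of_le t0] at hσ
    rw [sub_pos, div_lt_one (by linarith)]; linarith [hσ.2]
  have dq : ∀ σ ∈ uIcc 0 t, HasDerivAt (fun σ => (1 - σ / (2 * T))⁻¹)
      ((1 - σ / (2 * T))⁻¹ ^ 2 / (2 * T)) σ := fun σ hσ =>
    ((((hasDerivAt_id' σ).div_const (2 * T)).const_sub 1).fun_inv (p σ hσ).ne').congr_deriv (by
      have := (p σ hσ).ne'; field_simp)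
  have cq : ContinuousOn (fun σ => (1 - σ / (2 * T))⁻¹) (uIcc 0 t) := fun σ hσ =>
    (dq σ hσ).continuousAt.continuousWithinAt
  rw [integral_eq_sub_of_hasDerivAt (f := fun σ => (t - σ) * (2 * T * b *
    ((1 - σ / (2 * T))⁻¹) ^ (b + 1)) + 4 * T ^ 2 * ((1 - σ / (2 * T))⁻¹) ^ b)
    (f' := fun σ => (t - σ) * (b * (b + 1) * ((1 - σ / (2 * T))⁻¹) ^ (b + 2))) (fun σ hσ =>
      ((((hasDerivAt_id' σ).const_sub t).fun_mul (((dq σ hσ).fun_pow (b + 1)).const_mul _)).fun_add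
        (((dq σ hσ).fun_pow b).const_mul _)).congr_deriv ?_)
      (((continuousOn_const.sub continuousOn_id).mul
        (continuousOn_const.mul (cq.pow _))).intervalIntegrable)]
  · simp only [sub_self, zero_div, sub_zero, inv_one, one_pow, zero_mul]
    have : 0 ≤ t * (2 * T * b * 1) := by positivity
    nlinarith
  · generalize (1 - σ / (2 * T))⁻¹ = q
    rcases b with _ | b
    · simp
    · simp only [Nat.add_sub_cancel]; push_cast; field_simp; ring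

lemma sup {A G : ℕ → ℝ → ℝ} {α : ℕ → ℝ} {a T ε M0 : ℝ} {s : ℕ} (T0 : 0 < T)
    (hε : 64 * ε ^ 2 * T ^ 2 ≤ 1) (hα : ∀ b ≥ s, |α b| ≤ a)
    (hG : ∀ b ≥ s, ∀ σ, |G b σ| ≤ 4 * ε ^ 2 * (b * (b + 1)) * (|A (b + 1) σ| + |A (b + 2) σ|))
    (D : ∀ b ≥ s, ∀ t ≥ 0, A b t = α b * sin t - ∫ σ in 0..t, sin (t - σ) * G b σ)
    (hM : ∀ b ≥ s, ∀ t ∈ Icc 0 T, |A b t| ≤ M0) :
    ∀ b ≥ s, ∀ t ∈ Icc 0 T, |A b t| ≤ 2 * a * T * 2 ^ b := by
  have a0 : 0 ≤ a := (abs_nonneg _).trans (hα s le_rfl)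
  have M1 : 0 ≤ M0 := (abs_nonneg _).trans (hM s le_rfl 0 ⟨le_rfl, T0.le⟩)
  have p : ∀ σ ∈ Icc 0 T, 1 / 2 ≤ 1 - σ / (2 * T) ∧ 1 - σ / (2 * T) ≤ 1 := fun σ hσ =>
    ⟨by have : σ / (2 * T) ≤ 1 / 2 := by rw [div_le_iff₀ (by linarith)]; linarith [hσ.2]
        linarith, sub_le_self _ (div_nonneg hσ.1 (by linarith))⟩
  have q1 : ∀ σ ∈ Icc 0 T, 1 ≤ (1 - σ / (2 * T))⁻¹ := fun σ hσ =>
    (one_le_inv₀ (by linarith [(p σ hσ).1])).2 (p σ hσ).2
  have q2 : ∀ σ ∈ Icc 0 T, (1 - σ / (2 * T))⁻¹ ≤ 2 := fun σ hσ =>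
    inv_le_of_inv_le₀ two_pos (by linarith [(p σ hσ).1])
  have key : ∀ k : ℕ, ∀ b ≥ s, ∀ t ∈ Icc 0 T,
      |A b t| ≤ (2 * a * T + M0 * (1 / 2) ^ k) * ((1 - t / (2 * T))⁻¹) ^ b := by
    intro k
    induction k with
    | zero =>
      intro b hb t ht
      refine (hM b hb t ht).trans (le_trans ?_ (le_mul_of_one_le_right (by positivity)
        (one_le_pow₀ (q1 t ht))))
      simp; positivity
    | succ k ih =>
      intro b hb t ht
      set M := 2 * a * T + M0 * (1 / 2) ^ k with hMd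
      have M2 : 0 ≤ M := by positivity
      have s1 : Icc 0 t ⊆ Icc 0 T := Icc_subset_Icc_right ht.2
      have h1 := duh (G := G b) (F := fun σ => 8 * ε ^ 2 * M *
        (b * (b + 1) * ((1 - σ / (2 * T))⁻¹) ^ (b + 2))) ht.1 (fun σ hσ => by
          have e1 := (ih (b + 1) (by omega) σ (s1 hσ)).trans (mul_le_mul_of_nonneg_left
            (pow_le_pow_right₀ (q1 σ (s1 hσ)) (by omega : b + 1 ≤ b + 2)) M2)
          have e2 := ih (b + 2) (by omega) σ (s1 hσ)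
          refine (hG b hb σ).trans ((mul_le_mul_of_nonneg_left (add_le_add e1 e2)
            (by positivity)).trans_eq (by ring)))
        (continuousOn_const.mul (continuousOn_const.mul (ContinuousOn.pow (ContinuousOn.inv₀
          (by fun_prop) fun σ hσ => by linarith [(p σ (s1 hσ)).1]) _)))
      simp_rw [mul_left_comm _ (8 * ε ^ 2 * M)] at h1
      rw [intervalIntegral.integral_const_mul] at h1
      have h2 := h1.trans (mul_le_mul_of_nonneg_left (qint T0 ht.1 ht.2 b) (by positivity))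
      have h3 : |α b * sin t| ≤ a * T := by
        rw [abs_mul]
        exact mul_le_mul (hα b hb) (abs_sin_le_abs.trans (by rw [abs_of_nonneg ht.1]; exact ht.2))
          (abs_nonneg _) a0
      have h4 := one_le_pow₀ (n := b) (q1 t ht)
      rw [D b hb t ht.1]
      refine (abs_sub _ _).trans ?_
      generalize ((1 - t / (2 * T))⁻¹) ^ b = Q at *
      have h5 := mul_le_mul_of_nonneg_left h4 (mul_nonneg a0 T0.le)
      have h6 := mul_le_mul_of_nonneg_left hε (mul_nonneg M2 (zero_le_one.trans h4))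
      have : (2 * a * T + M0 * (1 / 2) ^ (k + 1)) * Q = a * T * Q + M * Q / 2 := by rw [hMd]; ring
      linarith
  intro b hb t ht
  have l : Tendsto (fun k : ℕ => (2 * a * T + M0 * (1 / 2) ^ k) * ((1 - t / (2 * T))⁻¹) ^ b) atTop
      (𝓝 ((2 * a * T + M0 * 0) * ((1 - t / (2 * T))⁻¹) ^ b)) :=
    (((tendsto_pow_atTop_nhds_zero_of_lt_one (by norm_num) (by norm_num)).const_mul M0).const_add
      _).mul_const _
  refine (ge_of_tendsto' l fun k => key k b hb t ht).trans ?_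
  rw [mul_zero, add_zero]
  exact mul_le_mul_of_nonneg_left (pow_le_pow_left₀ (zero_le_one.trans (q1 t ht)) (q2 t ht) b)
    (by positivity)

end Pool.Agent.H.MP_e4c1d4_an
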