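import Pool.Agent.H.MP_e4c1d4_an.A

set_option linter.unusedSectionVars false
set_option linter.unusedVariables false
set_option linter.dupNamespace false

namespace Pool.Agent.H.MP_e4c1d4_an

open Filter Topology Set Metric Real MeasureTheory Pool.Agent.H.MP_0f8a1e_an

variable {ι : Type} [Fintype ι] [DecidableEq ι] [Nonempty ι]

noncomputable def r (ε : ℝ) (c x : Eu ι) : ℝ := (1 + ε ^ 2 * ‖x - c‖ ^ 2)⁻¹

variable {ε C : ℝ} {c x : Eu ι} {b : ℕ} {f g f1 f2 : Eu ι → ℝ}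

lemma r0 : 0 < r ε c x := by unfold r; positivity
lemma r1 : r ε c x ≤ 1 := inv_le_one_of_one_le₀ (le_add_of_nonneg_right (by positivity))
lemma rc : Continuous (r ε c) := Continuous.inv₀ (by fun_prop) fun x => by positivity
lemma rq : ε ^ 2 * ‖x - c‖ ^ 2 * r ε c x = 1 - r ε c x := by unfold r; field_simp; ring

lemma ri (ε0 : 0 < ε) (hb : Fintype.card ι ≤ b) : Integrable fun x => r ε c x ^ b := by
  have h : (Module.finrank ℝ (Eu ι) : ℝ) < 2 * b := by
    have := Fintype.card_pos (α := ι)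
    rw [finrank_euclideanSpace]; exact_mod_cast (by omega : Fintype.card ι < 2 * b)
  refine (((integrable_rpow_neg_one_add_norm_sq (μ := volume) h).comp_smul ε0.ne').comp_sub_right
    c).congr (.of_forall fun x => ?_)
  simp only [r]
  rw [norm_smul, mul_pow, Real.norm_eq_abs, sq_abs, show -(2 * (b : ℝ)) / 2 = -b by ring,
    rpow_neg (by positivity), rpow_natCast, inv_pow]

lemma ig (ε0 : 0 < ε) (hb : Fintype.card ι ≤ b) (cf : Continuous f) (cg : Continuous g) {K : ℝ}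
    (hf : ∀ x, |f x| ≤ C) (hg : ∀ x, |g x| ≤ K * r ε c x ^ b) : Integrable fun x => f x * g x :=
  ((ri (c := c) ε0 hb).const_mul (C * K)).mono' (cf.mul cg).aestronglyMeasurable
    (.of_forall fun x => by
      rw [Real.norm_eq_abs, abs_mul, mul_assoc]
      exact mul_le_mul (hf x) (hg x) (abs_nonneg _) ((abs_nonneg _).trans (hf x)))

lemma ig0 (ε0 : 0 < ε) (hb : Fintype.card ι ≤ b) (cf : Continuous f) (hf : ∀ x, |f x| ≤ C) :
    Integrable fun x => f x * r ε c x ^ b :=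
  ig (c := c) (K := 1) ε0 hb cf (rc.pow b) hf fun x => by
    rw [one_mul, abs_of_pos (pow_pos r0 _)]

lemma rd (i : ι) : HasDerivAt (fun τ : ℝ => r ε c (x + τ • eb i))
    (-2 * ε ^ 2 * (x i - c i) * r ε c x ^ 2) 0 := by
  have := ((((J2.line x (eb i)).nsq c).d.const_mul (ε ^ 2)).const_add 1).fun_inv (by positivity)
  refine this.congr_deriv ?_
  simp only [zero_smul, add_zero, eb_i, r, PiLp.sub_apply]
  field_simp

noncomputable def p1 (ε : ℝ) (c : Eu ι) (b : ℕ) (i : ι) (x : Eu ι) : ℝ :=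
  -2 * b * ε ^ 2 * ((x i - c i) * r ε c x ^ (b + 1))
noncomputable def p2 (ε : ℝ) (c : Eu ι) (b : ℕ) (i : ι) (x : Eu ι) : ℝ :=
  -2 * b * ε ^ 2 * r ε c x ^ (b + 1) +
    4 * (b * (b + 1)) * ε ^ 2 * (ε ^ 2 * (x i - c i) ^ 2) * r ε c x ^ (b + 2)

lemma d1 (i : ι) : HasLineDerivAt ℝ (fun x => r ε c x ^ b) (p1 ε c b i x) x (eb i) := by
  refine ((rd i).fun_pow b).congr_deriv ?_
  rcases b with _ | b
  · simp [p1]
  · simp only [p1, zero_smul, add_zero, Nat.add_sub_cancel]; ring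

lemma d2 (i : ι) : HasLineDerivAt ℝ (p1 ε c b i) (p2 ε c b i x) x (eb i) := by
  have h : HasDerivAt (fun τ : ℝ => (x + τ • eb i) i - c i) 1 0 := by
    simpa [eb] using ((hasDerivAt_id' (0 : ℝ)).const_add (x i)).sub_const (c i)
  refine ((h.fun_mul ((rd i).fun_pow (b + 1))).const_mul _).congr_deriv ?_
  simp only [p2, zero_smul, add_zero, Nat.add_sub_cancel]; push_cast; ring

lemma yq (i : ι) : ε ^ 2 * (x i - c i) ^ 2 * r ε c x ≤ 1 - r ε c x := by
  rw [← rq]
  have := co_le (x - c) i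
  rw [PiLp.sub_apply] at this
  exact mul_le_mul_of_nonneg_right (mul_le_mul_of_nonneg_left (by
    rw [← sq_abs]; exact pow_le_pow_left₀ (abs_nonneg _) this 2) (sq_nonneg _)) r0.le

lemma b1 (ε0 : 0 < ε) (i : ι) : |p1 ε c b i x| ≤ 2 * b * ε * r ε c x ^ b := by
  have h := yq (ε := ε) (c := c) (x := x) i
  have h0 := r0 (ε := ε) (c := c) (x := x)
  have : ε * |x i - c i| * r ε c x ≤ 1 := by
    rw [← sq_abs (x i - c i)] at h
    nlinarith [mul_nonneg (sq_nonneg (ε * |x i - c i| - 1)) h0.le, abs_nonneg (x i - c i),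
      mul_nonneg (mul_nonneg ε0.le (abs_nonneg (x i - c i))) h0.le]
  have e : |p1 ε c b i x| = 2 * b * ε * r ε c x ^ b * (ε * |x i - c i| * r ε c x) := by
    simp only [p1, abs_mul, abs_pow, abs_neg, abs_two, Nat.abs_cast, abs_of_pos h0, abs_of_pos ε0]
    ring
  rw [e]
  exact mul_le_of_le_one_right (by positivity) this

lemma b2 (i : ι) : |p2 ε c b i x| ≤ (2 * b * ε ^ 2 + 4 * (b * (b + 1)) * ε ^ 2) * r ε c x ^ b := by
  have h := yq (ε := ε) (c := c) (x := x) i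
  have h0 := r0 (ε := ε) (c := c) (x := x)
  have h1 := r1 (ε := ε) (c := c) (x := x)
  refine (abs_add_le _ _).trans ?_
  rw [add_mul, abs_of_nonneg (a := _ * r ε c x ^ (b + 2)) (by positivity), abs_of_nonpos (by
    have : 0 ≤ 2 * b * ε ^ 2 * r ε c x ^ (b + 1) := by positivity
    linarith)]
  have e1 := mul_le_mul_of_nonneg_left h1 (show 0 ≤ 2 * b * ε ^ 2 * r ε c x ^ b by positivity)
  have e2 := mul_le_mul_of_nonneg_left (mul_le_one₀ (h.trans (by linarith)) h0.le h1)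
    (show 0 ≤ 4 * (b * (b + 1)) * ε ^ 2 * r ε c x ^ b by positivity)
  refine add_le_add (le_of_eq_of_le (by ring) (e1.trans_eq (by ring)))
    (le_of_eq_of_le (by ring) (e2.trans_eq (by ring)))

lemma ibp (ε0 : 0 < ε) (hb : Fintype.card ι ≤ b) (i : ι) (c0 : Continuous f) (c1 : Continuous f1)
    (c2 : Continuous f2) (a0 : ∀ x, |f x| ≤ C) (a1 : ∀ x, |f1 x| ≤ C) (a2 : ∀ x, |f2 x| ≤ C)
    (l1 : ∀ x, HasLineDerivAt ℝ f (f1 x) x (eb i)) (l2 : ∀ x, HasLineDerivAt ℝ f1 (f2 x) x (eb i)) :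
    ∫ x, f2 x * r ε c x ^ b = ∫ x, f x * p2 ε c b i x := by
  have := rc (ε := ε) (c := c)
  have k1 : Continuous (p1 ε c b i) := by unfold p1; fun_prop
  have k2 : Continuous (p2 ε c b i) := by unfold p2; fun_prop
  have i1 := ig ε0 hb c1 k1 a1 fun x => b1 ε0 i
  have e1 := integral_bilinear_hasLineDerivAt_right_eq_neg_left_of_integrable (μ := volume)
    (B := ContinuousLinearMap.mul ℝ ℝ) i1 (ig ε0 hb c0 k2 a0 fun x => b2 i)
    (ig ε0 hb c0 k1 a0 fun x => b1 ε0 i) (fun x _ => l1 x) fun x _ => d2 i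
  have e2 := integral_bilinear_hasLineDerivAt_right_eq_neg_left_of_integrable (μ := volume)
    (B := ContinuousLinearMap.mul ℝ ℝ) (ig0 ε0 hb c2 a2) i1 (ig0 ε0 hb c1 a1) (fun x _ => l2 x)
    fun x _ => d1 i
  simp only [ContinuousLinearMap.mul_apply'] at e1 e2
  linarith

noncomputable def av (ε : ℝ) (c : Eu ι) (f : Eu ι → ℝ) (b : ℕ) : ℝ := ∫ x, f x * r ε c x ^ b

variable (ι) in
noncomputable def cc (b : ℕ) : ℝ := 4 * (b * (b + 1)) - 2 * b * dd ι

lemma cc0 (hb : Fintype.card ι ≤ b) : 0 ≤ cc ι b := by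
  have : dd ι ≤ b := Nat.cast_le.2 hb
  have b0 : (0 : ℝ) ≤ b := b.cast_nonneg
  unfold cc; nlinarith [mul_le_mul_of_nonneg_left this b0]

lemma cc1 : cc ι b ≤ 4 * (b * (b + 1)) := sub_le_self _ (by have := dd1 (ι := ι); positivity)

lemma lapint (ε0 : 0 < ε) (hb : Fintype.card ι ≤ b) {f1 f2 : ι → Eu ι → ℝ} (c0 : Continuous f)
    (c1 : ∀ i, Continuous (f1 i)) (c2 : ∀ i, Continuous (f2 i)) (a0 : ∀ x, |f x| ≤ C)
    (a1 : ∀ i x, |f1 i x| ≤ C) (a2 : ∀ i x, |f2 i x| ≤ C)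
    (l1 : ∀ i x, HasLineDerivAt ℝ f (f1 i x) x (eb i))
    (l2 : ∀ i x, HasLineDerivAt ℝ (f1 i) (f2 i x) x (eb i)) :
    ∑ i, av ε c (f2 i) b =
      ε ^ 2 * (cc ι b * av ε c f (b + 1) - 4 * (b * (b + 1)) * av ε c f (b + 2)) := by
  have := rc (ε := ε) (c := c)
  simp only [av]
  rw [Finset.sum_congr rfl fun i _ => ibp ε0 hb i c0 (c1 i) (c2 i) a0 (a1 i) (a2 i) (l1 i) (l2 i),
    ← integral_finsetSum _ fun i _ => ig ε0 hb c0 (by unfold p2; fun_prop) a0 fun x => b2 i,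
    ← integral_const_mul, ← integral_const_mul, ← integral_sub ((ig0 ε0 (by omega) c0 a0).const_mul _)
      ((ig0 ε0 (by omega) c0 a0).const_mul _), ← integral_const_mul]
  congr 1; funext x
  have e : ∑ i, (x i - c i) ^ 2 = ‖x - c‖ ^ 2 := by simpa using sum_sq (x - c)
  simp only [p2, ← Finset.mul_sum, Finset.sum_add_distrib, sum_c, ← Finset.sum_mul, e, cc]
  linear_combination (f x * 4 * (b * (b + 1)) * ε ^ 2 * r ε c x ^ (b + 1)) * rq (ε := ε) (c := c) (x := x)

lemma peak (ε0 : 0 < ε) {s : ℕ} (hs : Fintype.card ι ≤ s) (cg : Continuous g) (hg : ∀ x, |g x| ≤ C)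
    (h : ∀ b ≥ s, av ε c g b ≤ 0) : g c ≤ 0 := by
  by_contra hc
  rw [not_le] at hc
  obtain ⟨δ, δ0, hδ⟩ := Metric.eventually_nhds_iff.1
    (cg.continuousAt.eventually (lt_mem_nhds (half_lt_self hc)))
  have C0 : 0 ≤ C := (abs_nonneg _).trans (hg c)
  set ρ1 := (1 + ε ^ 2 * (δ / 2) ^ 2)⁻¹
  set ρ2 := (1 + ε ^ 2 * δ ^ 2)⁻¹
  have p1 : 0 < ρ1 := by positivity
  have p2 : 0 < ρ2 := by positivity
  have lt : ρ2 < ρ1 := inv_strictAnti₀ (by positivity) (by
    have : 0 < ε ^ 2 * δ ^ 2 := by positivity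
    linarith)
  have V0 : 0 < volume.real (ball c (δ / 2)) :=
    ENNReal.toReal_pos (measure_ball_pos _ _ (half_pos δ0)).ne' measure_ball_lt_top.ne
  have key : ∀ k : ℕ, volume.real (ball c (δ / 2)) * (g c / 2 * ρ1 ^ s) ≤
      (C * ∫ x, r ε c x ^ s) * (ρ2 / ρ1) ^ k := fun k => by
    have i1 : Integrable ((ball c (δ / 2)).indicator fun _ => g c / 2 * ρ1 ^ (s + k)) :=
      (integrable_indicator_iff measurableSet_ball).2 (integrableOn_const measure_ball_lt_top.ne)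
    have i2 := (ri (c := c) ε0 hs).const_mul (C * ρ2 ^ k)
    have := (integral_mono (i1.sub i2) (ig0 ε0 (by omega) cg hg) fun x => ?_).trans
      (h (s + k) (by omega))
    · rw [integral_sub' i1 i2, integral_indicator_const _ measurableSet_ball, integral_const_mul,
        smul_eq_mul] at this
      rw [div_pow, ← mul_div_assoc, le_div_iff₀ (pow_pos p1 k)]
      rw [pow_add] at this
      linarith
    have n0 : 0 ≤ C * ρ2 ^ k * r ε c x ^ s := by have := r0 (ε := ε) (c := c) (x := x); positivity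
    have h0 := r0 (ε := ε) (c := c) (x := x)
    simp only [Pi.sub_apply]
    by_cases hx : x ∈ ball c (δ / 2)
    · rw [indicator_of_mem hx]
      rw [mem_ball] at hx
      have : ρ1 ≤ r ε c x := inv_anti₀ (by positivity) (by rw [← dist_eq_norm]; gcongr)
      have := mul_le_mul (hδ (hx.trans (half_lt_self δ0))).le (pow_le_pow_left₀ p1.le this (s + k))
        (by positivity) (by linarith [hδ (hx.trans (half_lt_self δ0))])
      linarith
    rw [indicator_of_notMem hx]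
    rcases lt_or_ge (dist x c) δ with hx | hx
    · have : 0 ≤ g x * r ε c x ^ (s + k) := mul_nonneg (by linarith [hδ hx]) (by positivity)
      linarith
    · have : r ε c x ≤ ρ2 := inv_anti₀ (by positivity) (by rw [← dist_eq_norm]; gcongr)
      have e1 := mul_le_mul_of_nonneg_left (pow_le_pow_left₀ h0.le this k)
        (show 0 ≤ C * r ε c x ^ s by positivity)
      have e2 := mul_le_mul_of_nonneg_right (abs_le.1 (hg x)).1
        (show 0 ≤ r ε c x ^ (s + k) by positivity)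
      rw [pow_add] at e2 ⊢
      linarith
  have l := (tendsto_pow_atTop_nhds_zero_of_lt_one (div_pos p2 p1).le
    ((div_lt_one p1).2 lt)).const_mul (C * ∫ x, r ε c x ^ s)
  have := ge_of_tendsto' l key
  have : 0 < volume.real (ball c (δ / 2)) * (g c / 2 * ρ1 ^ s) := by positivity
  linarith

end Pool.Agent.H.MP_e4c1d4_an
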