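import Pool.Agent.H.MP_e4c1d4_an.B

set_option linter.unusedSectionVars false
set_option linter.unusedVariables false
set_option linter.dupNamespace false

namespace Pool.Agent.H.MP_e4c1d4_an

open Filter Topology Set Metric Real MeasureTheory Pool.Agent.H.MP_0f8a1e_an

variable {ι : Type} [Fintype ι] [DecidableEq ι] [Nonempty ι]

structure Sl (W W1 W2 : ℝ → Eu ι → ℝ) (V1 V2 : ℝ → ι → Eu ι → ℝ) : Prop where
  c : Continuous (Function.uncurry W)
  z : ∀ x, W 0 x = 0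
  lo : ∀ t ≥ 0, ∀ x, cos t - 1 ≤ W t x
  bd : ∀ T, ∃ C, ∀ t ≤ T, ∀ x, |W t x| ≤ C
  d1 : ∀ t > 0, ∀ x, HasDerivAt (fun t => W t x) (W1 t x) t
  d2 : ∀ t > 0, ∀ x, HasDerivAt (fun t => W1 t x) (W2 t x) t
  l1 : ∀ t > 0, ∀ i x, HasLineDerivAt ℝ (W t) (V1 t i x) x (eb i)
  l2 : ∀ t > 0, ∀ i x, HasLineDerivAt ℝ (V1 t i) (V2 t i x) x (eb i)
  c1 : ∀ t > 0, Continuous (W1 t) ∧ Continuous (W2 t) ∧ (∀ i, Continuous (V1 t i)) ∧
    ∀ i, Continuous (V2 t i)
  b2 : ∀ t > 0, ∃ C, ∀ σ ∈ Ioo (t / 2) (2 * t), (∀ x, |W σ x| ≤ C) ∧ (∀ x, |W1 σ x| ≤ C) ∧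
    (∀ x, |W2 σ x| ≤ C) ∧ (∀ i x, |V1 σ i x| ≤ C) ∧ ∀ i x, |V2 σ i x| ≤ C
  eq : ∀ t > 0, ∀ x, W2 t x = -W t x - ∑ i, V2 t i x

variable {W W1 W2 : ℝ → Eu ι → ℝ} {V1 V2 : ℝ → ι → Eu ι → ℝ} {ε C t T : ℝ} {c x : Eu ι} {b s : ℕ}
  {f g : Eu ι → ℝ}

lemma nb (h : |f x| ≤ C) : ‖f x * r ε c x ^ b‖ ≤ C * r ε c x ^ b := by
  rw [Real.norm_eq_abs, abs_mul, abs_of_pos (pow_pos r0 _)]
  exact mul_le_mul_of_nonneg_right h (pow_pos r0 _).le

lemma dint {F F' : ℝ → Eu ι → ℝ} {S : Set ℝ} (ε0 : 0 < ε) (hb : Fintype.card ι ≤ b) (hS : S ∈ 𝓝 t)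
    (c0 : ∀ σ ∈ S, Continuous (F σ)) (c1 : Continuous (F' t)) (a0 : ∀ x, |F t x| ≤ C)
    (a1 : ∀ σ ∈ S, ∀ x, |F' σ x| ≤ C) (d : ∀ σ ∈ S, ∀ x, HasDerivAt (fun σ => F σ x) (F' σ x) σ) :
    HasDerivAt (fun σ => av ε c (F σ) b) (av ε c (F' t) b) t :=
  (hasDerivAt_integral_of_dominated_loc_of_deriv_le (F := fun σ x => F σ x * r ε c x ^ b)
    (F' := fun σ x => F' σ x * r ε c x ^ b) hS
    (Filter.mem_of_superset hS fun σ h => ((c0 σ h).mul (rc.pow b)).aestronglyMeasurable)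
    (ig0 ε0 hb (c0 t (mem_of_mem_nhds hS)) a0) (c1.mul (rc.pow b)).aestronglyMeasurable
    (.of_forall fun x σ h => nb (a1 σ h x)) ((ri ε0 hb).const_mul C)
    (.of_forall fun x σ h => (d σ h x).mul_const _)).2

noncomputable def I (ε : ℝ) (c : Eu ι) (b : ℕ) : ℝ := ∫ x, r ε c x ^ b

lemma I0 : 0 ≤ I ε c b := integral_nonneg fun x => (pow_pos r0 _).le

lemma rle (hb : s ≤ b) : r ε c x ^ b ≤ r ε c x ^ s := pow_le_pow_of_le_one r0.le r1 hb

lemma Ile (ε0 : 0 < ε) (hs : Fintype.card ι ≤ s) (hb : s ≤ b) : I ε c b ≤ I ε c s :=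
  integral_mono (ri ε0 (hs.trans hb)) (ri ε0 hs) fun x => rle hb

lemma avb (ε0 : 0 < ε) (hs : Fintype.card ι ≤ s) (hb : s ≤ b) (h : ∀ x, |f x| ≤ C) :
    |av ε c f b| ≤ C * I ε c s := by
  refine le_trans (norm_integral_le_of_norm_le ((ri ε0 (hs.trans hb)).const_mul C)
    (.of_forall fun x => nb (h x))) ?_
  rw [integral_const_mul]
  exact mul_le_mul_of_nonneg_left (Ile ε0 hs hb) ((abs_nonneg _).trans (h c))

lemma Irel (ε0 : 0 < ε) (hb : Fintype.card ι ≤ b) :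
    cc ι b * I ε c (b + 1) = 4 * (b * (b + 1)) * I ε c (b + 2) := by
  have := lapint (c := c) (f := fun _ => 1) (f1 := fun _ _ => 0) (f2 := fun _ _ => 0) (C := 1) ε0 hb
    continuous_const (fun _ => continuous_const) (fun _ => continuous_const) (by simp) (by simp)
    (by simp) (fun i x => hasDerivAt_const _ _) fun i x => hasDerivAt_const _ _
  simp only [av, zero_mul, integral_zero, Finset.sum_const_zero, one_mul] at this
  exact sub_eq_zero.1 ((mul_eq_zero.1 this.symm).resolve_left (by positivity))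

noncomputable def GG (ε : ℝ) (c : Eu ι) (W : ℝ → Eu ι → ℝ) (b : ℕ) (σ : ℝ) : ℝ :=
  ε ^ 2 * (cc ι b * av ε c (W σ) (b + 1) - 4 * (b * (b + 1)) * av ε c (W σ) (b + 2))

lemma GG_le (hb : Fintype.card ι ≤ b) (σ : ℝ) : |GG ε c W b σ| ≤
    4 * ε ^ 2 * (b * (b + 1)) * (|av ε c (W σ) (b + 1)| + |av ε c (W σ) (b + 2)|) := by
  rw [GG, abs_mul, abs_of_nonneg (sq_nonneg ε)]
  have := abs_sub (cc ι b * av ε c (W σ) (b + 1)) (4 * (b * (b + 1)) * av ε c (W σ) (b + 2))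
  rw [abs_mul, abs_mul, abs_of_nonneg (cc0 hb), abs_of_nonneg (a := 4 * _) (by positivity)] at this
  have h := mul_le_mul_of_nonneg_right (cc1 (ι := ι) (b := b)) (abs_nonneg (av ε c (W σ) (b + 1)))
  exact (mul_le_mul_of_nonneg_left (this.trans (add_le_add h le_rfl)) (sq_nonneg ε)).trans_eq
    (by ring)

variable (h : Sl W W1 W2 V1 V2) (ε0 : 0 < ε)
include h

lemma Sl.ct (t : ℝ) : Continuous (W t) := h.c.uncurry_left t

include ε0

lemma Sl.cA (hb : Fintype.card ι ≤ b) : Continuous fun t => av ε c (W t) b :=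
  continuous_iff_continuousAt.2 fun t => by
    obtain ⟨C, hC⟩ := h.bd (t + 1)
    exact continuousAt_of_dominated (.of_forall fun σ => ((h.ct σ).mul (rc.pow b)).aestronglyMeasurable)
      ((eventually_le_nhds (lt_add_one t)).mono fun σ hσ => .of_forall fun x => nb (hC σ hσ x))
      ((ri ε0 hb).const_mul C) (.of_forall fun x =>
        ((h.c.uncurry_right x).mul continuous_const).continuousAt)

lemma Sl.cG (hb : Fintype.card ι ≤ b) : Continuous (GG ε c W b) := by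
  have := h.cA (c := c) ε0 (b := b + 1) (by omega)
  have := h.cA (c := c) ε0 (b := b + 2) (by omega)
  unfold GG; fun_prop

lemma Sl.du (hb : Fintype.card ι ≤ b) : ∃ α, ∀ t ≥ 0,
    av ε c (W t) b = α * sin t - ∫ σ in 0..t, sin (t - σ) * GG ε c W b σ := by
  have hS : ∀ t > (0 : ℝ), Ioo (t / 2) (2 * t) ∈ 𝓝 t := fun t ht =>
    Ioo_mem_nhds (by linarith) (by linarith)
  have p : ∀ t > (0 : ℝ), ∀ σ ∈ Ioo (t / 2) (2 * t), σ > 0 := fun t ht σ hσ => by linarith [hσ.1]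
  refine ode (A1 := fun t => av ε c (W1 t) b) (h.cA ε0 hb) (h.cG ε0 hb) (by simp [av, h.z])
    (fun t ht => ?_) fun t ht => ?_
  · obtain ⟨C, hC⟩ := h.b2 t ht
    exact dint ε0 hb (hS t ht) (fun σ _ => h.ct σ) (h.c1 t ht).1
      (hC t (mem_of_mem_nhds (hS t ht))).1 (fun σ hσ => (hC σ hσ).2.1)
      fun σ hσ => h.d1 σ (p t ht σ hσ)
  obtain ⟨C, hC⟩ := h.b2 t ht
  obtain ⟨a0, a1, a2, a3, a4⟩ := hC t (mem_of_mem_nhds (hS t ht))
  obtain ⟨c1, c2, c3, c4⟩ := h.c1 t ht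
  refine (dint ε0 hb (hS t ht) (fun σ hσ => (h.c1 σ (p t ht σ hσ)).1) c2 a1
    (fun σ hσ => (hC σ hσ).2.2.1) fun σ hσ => h.d2 σ (p t ht σ hσ)).congr_deriv ?_
  rw [GG, ← lapint ε0 hb (h.ct t) c3 c4 a0 a3 a4 (h.l1 t ht) (h.l2 t ht)]
  simp only [av]
  rw [← integral_finsetSum _ fun i _ => ig0 ε0 hb (c4 i) (a4 i), ← integral_neg,
    ← integral_sub (f := fun a => -(W t a * r ε c a ^ b)) (ig0 ε0 hb (h.ct t) a0).neg
      (integrable_finsetSum _ fun i _ => ig0 ε0 hb (c4 i) (a4 i))]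
  congr 1; funext x
  rw [h.eq t ht, ← Finset.sum_mul]; ring

lemma Sl.iW (hb : Fintype.card ι ≤ b) (t : ℝ) : Integrable fun x => W t x * r ε c x ^ b := by
  obtain ⟨C, hC⟩ := h.bd t
  exact ig0 ε0 hb (h.ct t) (hC t le_rfl)

lemma Sl.lo1 (hb : Fintype.card ι ≤ b) (ht : 0 ≤ t) : (cos t - 1) * I ε c b ≤ av ε c (W t) b := by
  rw [I, ← integral_const_mul]
  exact integral_mono ((ri ε0 hb).const_mul _) (h.iW ε0 hb t) fun x =>
    mul_le_mul_of_nonneg_right (h.lo t ht x) (pow_pos r0 _).le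

lemma Sl.lo2 (hs : Fintype.card ι ≤ s) (hb : s ≤ b) (ht : 0 ≤ t) :
    (cos t - 1) * (I ε c s - I ε c b) ≤ av ε c (W t) s - av ε c (W t) b := by
  have hb' := hs.trans hb
  rw [I, I, av, av, ← integral_sub (ri ε0 hs) (ri ε0 hb'), ← integral_const_mul,
    ← integral_sub (h.iW ε0 hs t) (h.iW ε0 hb' t)]
  refine integral_mono (((ri ε0 hs).sub (ri ε0 hb')).const_mul _)
    ((h.iW ε0 hs t).sub (h.iW ε0 hb' t)) fun x => ?_
  simp only [← mul_sub]
  exact mul_le_mul_of_nonneg_right (h.lo t ht x) (sub_nonneg.2 (rle hb))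

lemma Sl.Gb (hb : Fintype.card ι ≤ b) (hC : ∀ x, |W t x| ≤ C) :
    |GG ε c W b t| ≤ 8 * ε ^ 2 * (b * (b + 1)) * C * I ε c b :=
  (GG_le hb t).trans ((mul_le_mul_of_nonneg_left (add_le_add (avb ε0 hb (by omega) hC)
    (avb ε0 hb (by omega) hC)) (by positivity)).trans_eq (by ring))

lemma Sl.al : ∃ α : ℕ → ℝ, (∀ b, Fintype.card ι ≤ b → ∀ t ≥ 0,
    av ε c (W t) b = α b * sin t - ∫ σ in 0..t, sin (t - σ) * GG ε c W b σ) ∧
    ∀ s, Fintype.card ι ≤ s → 0 ≤ α s ∧ ∀ b ≥ s, α b ≤ α s := by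
  choose! α hα using fun b hb => h.du (c := c) (b := b) ε0 hb
  obtain ⟨C, hC⟩ := h.bd 1
  have e : ∀ b, Fintype.card ι ≤ b → ∃ K, ∀ t ∈ Icc (0 : ℝ) 1,
      |av ε c (W t) b - α b * sin t| ≤ K * t ^ 2 := fun b hb => ⟨_, fun t ht => by
    rw [hα b hb t ht.1, sub_sub_cancel_left, abs_neg]
    exact duh0 ht.1 fun σ hσ => h.Gb ε0 hb (hC σ (hσ.2.trans ht.2))⟩
  refine ⟨α, hα, fun s hs => ⟨?_, fun b hb => sub_nonneg.1 ?_⟩⟩
  · obtain ⟨K, hK⟩ := e s hs
    exact pos I0 hK fun t ht => h.lo1 ε0 hs ht.1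
  obtain ⟨K, hK⟩ := e s hs
  obtain ⟨K', hK'⟩ := e b (hs.trans hb)
  refine pos (K := K + K') (sub_nonneg.2 (Ile (c := c) ε0 hs hb)) (fun t ht => ?_) fun t ht =>
    h.lo2 ε0 hs hb ht.1
  have := abs_sub (av ε c (W t) s - α s * sin t) (av ε c (W t) b - α b * sin t)
  refine le_of_eq_of_le (by congr 1; ring) (this.trans ?_)
  linarith [hK t ht, hK' t ht]

omit h ε0 in
noncomputable def bb (W : ℝ → Eu ι → ℝ) (x : Eu ι) : ℝ := ∫ t in 0..2 * π, sin t * W t x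

omit ε0 in
lemma Sl.bc : Continuous (bb W) :=
  intervalIntegral.continuous_parametric_intervalIntegral_of_continuous'
    (f := fun x t => sin t * W t x)
    ((continuous_sin.comp continuous_snd).mul (h.c.comp continuous_swap)) _ _

omit ε0 in
lemma Sl.bb_le : ∃ C, ∀ x, |bb W x| ≤ C := by
  obtain ⟨C, hC⟩ := h.bd (2 * π)
  refine ⟨C * |2 * π - 0|, fun x => intervalIntegral.norm_integral_le_of_norm_le_const
    (f := fun t => sin t * W t x) fun t ht => ?_⟩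
  rw [uIoc_of_le (by positivity)] at ht
  rw [Real.norm_eq_abs, abs_mul]
  exact (mul_le_of_le_one_left (abs_nonneg _) (abs_sin_le_one t)).trans (hC t ht.2 x)

lemma Sl.fub (hb : Fintype.card ι ≤ b) :
    av ε c (bb W) b = ∫ t in 0..2 * π, sin t * av ε c (W t) b := by
  obtain ⟨C, hC⟩ := h.bd (2 * π)
  simp only [av, bb, ← integral_const_mul, ← intervalIntegral.integral_mul_const, mul_assoc]
  refine (intervalIntegral_integral_swap ?_).symm
  have i1 : Integrable (fun _ : ℝ => C) (volume.restrict (uIoc 0 (2 * π))) :=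
    intervalIntegrable_iff.1 intervalIntegrable_const
  refine (i1.mul_prod (ri (c := c) ε0 hb)).mono' (Continuous.aestronglyMeasurable
    ((continuous_sin.comp continuous_fst).mul (h.c.mul ((rc.pow b).comp continuous_snd))))
    ((Measure.quasiMeasurePreserving_fst.ae (ae_restrict_mem measurableSet_uIoc)).mono
      fun p hp => ?_)
  rw [uIoc_of_le (by positivity)] at hp
  simp only [Function.uncurry]
  rw [norm_mul]
  exact (mul_le_of_le_one_left (norm_nonneg _) (abs_sin_le_one _)).trans (nb (hC _ hp.2 _))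

lemma Sl.sub (hs : Fintype.card ι ≤ s) {m : ℝ} (hm : av ε c (bb W) (s + 1) ≤ m * I ε c (s + 1)) :
    bb W c ≤ m := by
  obtain ⟨C, hC⟩ := h.bb_le
  have e : ∀ b ≥ s, av ε c (fun x => bb W x - m) b = av ε c (bb W) b - m * I ε c b := fun b hb => by
    simp only [av, I, sub_mul]
    rw [integral_sub (ig0 ε0 (hs.trans hb) h.bc hC) ((ri ε0 (hs.trans hb)).const_mul m),
      integral_const_mul]
  refine sub_nonpos.1 (peak (g := fun x => bb W x - m) (s := s + 1) (C := C + |m|) ε0 (by omega)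
    (h.bc.sub continuous_const) (fun x => (abs_sub _ _).trans (add_le_add (hC x) le_rfl)) ?_)
  intro b hb
  rw [e b (by omega)]
  induction b, hb using Nat.le_induction with
  | base => linarith
  | succ b hb ih =>
    obtain ⟨b, rfl⟩ : ∃ k, b = k + 1 := ⟨b - 1, by omega⟩
    have hb' : Fintype.card ι ≤ b := by omega
    obtain ⟨α, hα⟩ := h.du (c := c) ε0 hb'
    have h1 := h.lo1 (c := c) ε0 hb' (t := 2 * π) (by positivity)
    rw [hα _ (by positivity)] at h1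
    have c1 := h.cA (c := c) ε0 (b := b + 1) (by omega)
    have c2 := h.cA (c := c) ε0 (b := b + 2) (by omega)
    have h2 : ∫ σ in 0..2 * π, sin (2 * π - σ) * GG ε c W b σ = -(ε ^ 2 * (cc ι b *
        av ε c (bb W) (b + 1) - 4 * (b * (b + 1)) * av ε c (bb W) (b + 2))) := by
      rw [h.fub ε0 (by omega), h.fub ε0 (by omega), ← intervalIntegral.integral_const_mul,
        ← intervalIntegral.integral_const_mul, ← intervalIntegral.integral_sub
        (Continuous.intervalIntegrable (by fun_prop) _ _)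
        (Continuous.intervalIntegrable (by fun_prop) _ _), ← intervalIntegral.integral_const_mul,
        ← intervalIntegral.integral_neg]
      congr 1; funext σ
      rw [sin_two_pi_sub, GG]; ring
    rw [h2, cos_two_pi, sin_two_pi, sub_self, zero_mul, mul_zero, zero_sub, neg_neg] at h1
    have h3 := nonneg_of_mul_nonneg_right h1 (by positivity)
    have h4 := mul_nonneg (cc0 hb') (neg_nonneg.2 ih)
    have h5 := Irel (c := c) ε0 hb'
    have b0 : (0 : ℝ) < b := Nat.cast_pos.2 (Fintype.card_pos.trans_le hb')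
    refine nonpos_of_mul_nonneg_right (a := -(4 * ((b : ℝ) * (b + 1)))) ?_ (neg_neg_of_pos (by positivity))
    linear_combination h3 + h4 + (-m) * h5.symm

lemma Sl.ba (hb : Fintype.card ι ≤ b) {α K : ℝ}
    (hα : ∀ t ≥ 0, av ε c (W t) b = α * sin t - ∫ σ in 0..t, sin (t - σ) * GG ε c W b σ)
    (hK : ∀ σ ∈ Icc 0 (2 * π), |GG ε c W b σ| ≤ K) : |av ε c (bb W) b - π * α| ≤ 8 * π ^ 3 * K := by
  have c1 := h.cA (c := c) ε0 hb
  have e : π * α = ∫ t in 0..2 * π, α * sin t ^ 2 := by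
    rw [intervalIntegral.integral_const_mul, integral_sin_sq, sin_two_pi]; simp [mul_comm]
  have K0 : 0 ≤ K := (abs_nonneg _).trans (hK 0 ⟨le_rfl, by positivity⟩)
  rw [h.fub ε0 hb, e, ← intervalIntegral.integral_sub (Continuous.intervalIntegrable (by fun_prop) _ _)
    (Continuous.intervalIntegrable (by fun_prop) _ _)]
  rw [show 8 * π ^ 3 * K = K * (2 * π) ^ 2 * |2 * π - 0| by
    rw [sub_zero, abs_of_pos two_pi_pos]; ring]
  refine intervalIntegral.norm_integral_le_of_norm_le_const (E := ℝ) fun t ht => ?_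
  rw [uIoc_of_le (by positivity)] at ht
  rw [hα t ht.1.le, show ∀ a : ℝ, sin t * (α * sin t - a) - α * sin t ^ 2 = -(sin t * a) from
    fun a => by ring, norm_neg, norm_mul]
  exact (mul_le_of_le_one_left (norm_nonneg _) (abs_sin_le_one _)).trans ((duh0 ht.1.le fun σ hσ =>
    hK σ ⟨hσ.1, hσ.2.trans ht.2⟩).trans (mul_le_mul_of_nonneg_left
      (pow_le_pow_left₀ ht.1.le ht.2 2) K0))

omit ε0

lemma Sl.b0 (c : Eu ι) : bb W c ≤ 0 := by
  obtain ⟨C, hC⟩ := h.bd (2 * π)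
  have C0 : 0 ≤ C := (abs_nonneg _).trans (hC 0 (by positivity) c)
  obtain ⟨s, hs⟩ : ∃ s, Fintype.card ι ≤ s := ⟨_, le_rfl⟩
  have hb : Fintype.card ι ≤ s + 1 := by omega
  obtain ⟨k, k0, hk⟩ : ∃ k ≥ 0, ∀ ε > 0, ∀ σ ∈ Icc 0 (2 * π),
      |GG ε c W (s + 1) σ| ≤ k * ε ^ 2 * I ε c (s + 1) :=
    ⟨8 * ((s + 1 : ℕ) * ((s + 1 : ℕ) + 1)) * C, by positivity, fun ε ε0 σ hσ =>
      (h.Gb ε0 hb (hC σ hσ.2)).trans_eq (by ring)⟩
  refine le_of_forall_pos_le_add fun η η0 => ?_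
  obtain ⟨δ, δ0, δ1, hδ⟩ := small (π * (8 * π ^ 2 * k + 1) + 8 * π ^ 3 * k) η0
  rw [zero_add]
  refine (h.sub δ0 hs ?_).trans hδ.le
  obtain ⟨α, hα, hp⟩ := h.al (c := c) δ0
  have a0 := (hp _ hb).1
  have h1 := (abs_le.1 (h.ba δ0 hb (hα _ hb) (hk δ δ0))).2
  have t0 : 0 ≤ 2 * π - δ := by linarith [pi_gt_three]
  have h2 := h.lo1 (c := c) δ0 hb t0
  have I1 := I0 (ε := δ) (c := c) (b := s + 1)
  have h3 := (abs_le.1 ((duh0 t0 fun σ hσ => hk δ δ0 σ ⟨hσ.1, hσ.2.trans (by linarith)⟩).trans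
    (mul_le_mul_of_nonneg_left (pow_le_pow_left₀ t0 (sub_le_self (2 * π) δ0.le) 2)
      (by positivity)))).1
  rw [hα _ hb _ t0, sin_two_pi_sub, cos_two_pi_sub] at h2
  generalize I δ c (s + 1) = J at *
  have h4 := mul_le_mul_of_nonneg_right (one_sub_sq_div_two_le_cos (x := δ)) I1
  have h5 : δ / 2 ≤ sin δ := by
    nlinarith [sin_gt_sub_cube δ0, mul_le_mul δ1 δ1 δ0.le zero_le_one, mul_pos δ0 δ0]
  have h6 := mul_le_mul_of_nonneg_left h5 a0
  have h7 : α (s + 1) ≤ δ * (8 * π ^ 2 * k + 1) * J :=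
    le_of_mul_le_mul_left (a := δ / 2) (by linarith) (half_pos δ0)
  have h8 := mul_le_mul_of_nonneg_left h7 pi_pos.le
  have h9 := mul_le_mul_of_nonneg_left δ1 (show 0 ≤ 8 * π ^ 3 * k * δ * J by positivity)
  linarith

theorem Sl.zero (ht : 0 ≤ t) (c : Eu ι) : W t c = 0 := by
  obtain ⟨T, tT, pT⟩ : ∃ T, t ≤ T ∧ 2 * π ≤ T := ⟨_, le_max_left _ _, le_max_right _ _⟩
  have T0 : 0 < T := by linarith [pi_pos]
  obtain ⟨C, hC⟩ := h.bd T
  obtain ⟨s, hs⟩ : ∃ s, Fintype.card ι ≤ s := ⟨_, le_rfl⟩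
  obtain ⟨k, k0, hk⟩ : ∃ k ≥ 0, k = 8 * (s * (s + 1)) * T * (2 ^ (s + 1) + 2 ^ (s + 2)) :=
    ⟨_, by positivity, rfl⟩
  obtain ⟨ε, ε0, ε1, hε⟩ := small (8 * π ^ 2 * k + 8 * T) one_pos
  have n1 : 0 ≤ ε * (8 * π ^ 2 * k) := by positivity
  have n2 : 0 ≤ ε * (8 * T) := by positivity
  obtain ⟨α, hα, hp⟩ := h.al (c := c) ε0
  have a0 := (hp s hs).1
  have S := sup (A := fun b t => av ε c (W t) b) (G := GG ε c W) (a := α s) (s := s) (ε := ε) T0
    (by nlinarith) (fun b hb => by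
      rw [abs_of_nonneg (hp b (hs.trans hb)).1]; exact (hp s hs).2 b hb)
    (fun b hb => GG_le (hs.trans hb)) (fun b hb => hα b (hs.trans hb))
    fun b hb t ht => avb ε0 hs hb (hC t ht.2)
  have h1 := (abs_le.1 (h.ba ε0 hs (hα s hs) (K := ε ^ 2 * k * α s) fun σ hσ =>
    (GG_le hs σ).trans ((mul_le_mul_of_nonneg_left (add_le_add
      (S (s + 1) (by omega) σ ⟨hσ.1, hσ.2.trans pT⟩) (S (s + 2) (by omega) σ ⟨hσ.1, hσ.2.trans pT⟩))
      (by positivity)).trans_eq (by rw [hk]; ring)))).1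
  have h2 : av ε c (bb W) s ≤ 0 := integral_nonpos fun x =>
    mul_nonpos_of_nonpos_of_nonneg (h.b0 x) (pow_pos r0 _).le
  have h3 := mul_le_mul_of_nonneg_left ε1 n1
  have a1 : α s = 0 := by
    by_contra hn
    have := mul_lt_mul_of_pos_left (show ε * (8 * π ^ 2 * k) * ε < 1 by linarith)
      (mul_pos pi_pos (a0.lt_of_ne' hn))
    linarith
  have z : ∀ b ≥ s, av ε c (W t) b = 0 := fun b hb => abs_nonpos_iff.1 (by
    simpa [a1] using S b hb t ⟨ht, tT⟩)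
  refine le_antisymm (peak ε0 hs (h.ct t) (hC t tT) fun b hb => (z b hb).le) (neg_nonpos.1
    (peak (g := fun x => -W t x) (C := C) ε0 hs (h.ct t).neg (by simpa using hC t tT) fun b hb => ?_))
  have := z b hb
  simp only [av, neg_mul, integral_neg] at this ⊢
  linarith

end Pool.Agent.H.MP_e4c1d4_an
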