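import Pool.Agent.H.MP_e4c1d4_an.C

set_option linter.unusedSectionVars false
set_option linter.unusedVariables false
set_option linter.dupNamespace false

namespace Pool.Agent.H.MP_e4c1d4_an

open Filter Topology Set Metric Real MeasureTheory Pool.Agent.H.MP_0f8a1e_an

section
variable {F : Type} [NormedAddCommGroup F] [NormedSpace ℝ F] {u : F → ℝ} {q v : F} {t : ℝ}

lemma ln (q v : F) (t : ℝ) : HasDerivAt (fun τ : ℝ => q + τ • v) v t := by
  simpa using ((hasDerivAt_id t).smul_const v).const_add q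

lemma g1 (h : ContDiffAt ℝ 2 u (q + t • v)) :
    HasDerivAt (fun τ : ℝ => u (q + τ • v)) (fderiv ℝ u (q + t • v) v) t :=
  (h.differentiableAt two_ne_zero).hasFDerivAt.comp_hasDerivAt t (ln q v t)

lemma g2 (h : ContDiffAt ℝ 2 u (q + t • v)) : HasDerivAt (fun τ : ℝ => fderiv ℝ u (q + τ • v) v)
    (fderiv ℝ (fderiv ℝ u) (q + t • v) v v) t := by
  simpa using (((h.fderiv_right (m := 1) le_rfl).differentiableAt
    one_ne_zero).hasFDerivAt.comp_hasDerivAt t (ln q v t)).clm_apply (hasDerivAt_const t v)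

lemma k1 {X : Type} [TopologicalSpace X] {p : X → F} (hp : Continuous p)
    (h : ∀ x, ContDiffAt ℝ 2 u (p x)) (v : F) : Continuous (fun x => fderiv ℝ u (p x) v) ∧
      Continuous fun x => fderiv ℝ (fderiv ℝ u) (p x) v v :=
  ⟨(continuous_iff_continuousAt.2 fun x => ((h x).fderiv_right (m := 1) le_rfl).continuousAt.comp
    hp.continuousAt).clm_apply continuous_const, ((continuous_iff_continuousAt.2 fun x =>
    (((h x).fderiv_right (m := 1) le_rfl).fderiv_right (m := 0) le_rfl).continuousAt.comp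
      hp.continuousAt).clm_apply continuous_const).clm_apply continuous_const⟩

end

lemma bnd {ι : Type} [Fintype ι] [DecidableEq ι] [Nonempty ι] {u : Eu ι → ℝ} (j : ι)
    (hu : ∀ x : Eu ι, 0 < x j → ContDiffAt ℝ 2 u x) (he : ∀ x : Eu ι, 0 < x j → lap u x = 1 - u x)
    {t M : ℝ} (ht : 0 < t) (hM : ∀ x : Eu ι, 0 ≤ x j → x j ≤ 3 * t → |u x| ≤ M) :
    ∃ C ≥ 0, ∀ x : Eu ι, x j ∈ Ioo (t / 2) (2 * t) → ∀ i, |fderiv ℝ u x (eb i)| ≤ C ∧
      |fderiv ℝ (fderiv ℝ u) x (eb i) (eb i)| ≤ C := by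
  have cl : ∀ {x y : Eu ι} {ρ : ℝ}, y ∈ closedBall x ρ → x j - ρ ≤ y j ∧ y j ≤ x j + ρ :=
    fun {x y ρ} h => by
      have := abs_le.1 ((co_le (y - x) j).trans (mem_closedBall_iff_norm.1 h))
      rw [PiLp.sub_apply] at this
      constructor <;> linarith [this.1, this.2]
  obtain ⟨G, hG⟩ : ∃ G, ∀ y : Eu ι, t / 4 ≤ y j → y j ≤ 5 / 2 * t → ‖fderiv ℝ u y‖ ≤ G :=
    ⟨_, fun y h1 h2 => gb (M := M) (N := 1 + M) (ρ := t / 8) (by linarith)
      (fun z hz => (hu z (by linarith [(cl hz).1])).continuousAt.continuousWithinAt)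
      (fun z hz => by
        have := cl (ball_subset_closedBall hz)
        refine ⟨_, Lap.of (hu z (by linarith [this.1])), ?_⟩
        rw [he z (by linarith [this.1])]
        refine (abs_sub _ _).trans ?_
        rw [abs_one]
        linarith [hM z (by linarith [this.1]) (by linarith [this.2])])
      (fun z hz => hM z (by linarith [(cl hz).1]) (by linarith [(cl hz).2]))
      ((hu y (by linarith)).differentiableAt two_ne_zero).hasFDerivAt⟩
  have G0 : 0 ≤ G := (norm_nonneg _).trans (hG (t • eb j) (by simp [eb]; linarith)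
    (by simp [eb]; linarith))
  obtain ⟨H, H0, hH⟩ : ∃ H ≥ 0, ∀ x : Eu ι, x j ∈ Ioo (t / 2) (2 * t) →
      ‖fderiv ℝ (fderiv ℝ u) x‖ ≤ H :=
    ⟨dd ι * (dd ι * G / (t / 4 / 2) + G * (t / 4 / 2) / 2), by have := dd1 (ι := ι); positivity,
      fun x hx => by
      have a1 : ∀ y ∈ closedBall x (t / 4), ContDiffAt ℝ 2 u y := fun y hy =>
        hu y (by linarith [(cl hy).1, hx.1])
      have a2 : ∀ y ∈ closedBall x (t / 4), ‖fderiv ℝ u y‖ ≤ G := fun y hy =>
        hG y (by linarith [(cl hy).1, hx.1]) (by linarith [(cl hy).2, hx.2])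
      refine hb (ρ := t / 4) (N := G) (by linarith) a1 a2 (fun y hy z hz => ?_) G0
      rw [he y (by linarith [(cl hy).1, hx.1]), he z (by linarith [(cl hz).1, hx.1]),
        sub_sub_sub_cancel_left, abs_sub_comm]
      exact (convex_closedBall x _).norm_image_sub_le_of_norm_fderiv_le
        (fun y hy => (a1 y hy).differentiableAt two_ne_zero) a2 hz hy⟩
  refine ⟨G + H, by positivity, fun x hx i => ⟨?_, ?_⟩⟩
  · have := (fderiv ℝ u x).le_opNorm (eb i)
    rw [eb_n, mul_one, Real.norm_eq_abs] at this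
    linarith [hG x (by linarith [hx.1]) (by linarith [hx.2])]
  · have := (fderiv ℝ (fderiv ℝ u) x).le_opNorm₂ (eb i) (eb i)
    rw [eb_n, mul_one, mul_one, Real.norm_eq_abs] at this
    linarith [hH x hx]

lemma emb (n : ℕ) : ∃ L : Eu (Fin n) →L[ℝ] Eu (Fin (n + 1)), (∀ i, L (eb i) = eb i.castSucc) ∧
    (∀ x, L x (Fin.last n) = 0) ∧ ∀ y, ∃ x, L x + y (Fin.last n) • eb (Fin.last n) = y := by
  refine ⟨∑ i, (EuclideanSpace.proj i).smulRight (eb (Fin.castSucc i)), fun i => ?_, fun x => ?_,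
    fun y => ⟨WithLp.toLp 2 fun i => y i.castSucc, ?_⟩⟩
  · simp [eb, ite_smul]
  · simp [eb, (Fin.castSucc_ne_last _).symm]
  · have e : y = ∑ j, y j • eb j := by
      simpa [eb] using ((EuclideanSpace.basisFun _ ℝ).sum_repr y).symm
    conv_rhs => rw [e, Fin.sum_univ_castSucc]
    simp

theorem main (n : ℕ) [Nonempty (Fin n)] {u : Eu (Fin (n + 1)) → ℝ}
    (hu : ∀ x : Eu (Fin (n + 1)), 0 < x (Fin.last n) → ContDiffAt ℝ 2 u x)
    (hc : ContinuousOn u {x | 0 ≤ x (Fin.last n)})
    (he : ∀ x : Eu (Fin (n + 1)), 0 < x (Fin.last n) → lap u x = 1 - u x)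
    (h0 : ∀ x : Eu (Fin (n + 1)), x (Fin.last n) = 0 → u x = 0)
    (hH : ∀ M > 0, ∃ C, ∀ x : Eu (Fin (n + 1)), 0 ≤ x (Fin.last n) → x (Fin.last n) ≤ M →
      0 ≤ u x ∧ u x ≤ C) (y : Eu (Fin (n + 1))) (hy : 0 ≤ y (Fin.last n)) :
    u y = 1 - cos (y (Fin.last n)) := by
  obtain ⟨L, L1, L2, L3⟩ := emb n
  obtain ⟨e, hE⟩ : ∃ e, e = eb (Fin.last n) := ⟨_, rfl⟩
  have pl : ∀ x (t : ℝ), (L x + t • e) (Fin.last n) = t := fun x t => by simp [L2, hE, eb]
  have hu' : ∀ t > (0 : ℝ), ∀ x, ContDiffAt ℝ 2 u (L x + t • e) := fun t ht x =>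
    hu _ (by rwa [pl])
  have sh : ∀ x i (t τ : ℝ), L (x + τ • eb i) + t • e = L x + t • e + τ • eb i.castSucc :=
    fun x i t τ => by rw [map_add, map_smul, L1, add_right_comm]
  have bd : ∀ T : ℝ, ∃ C, ∀ t ≤ T, ∀ x, |u (L x + max t 0 • e) - (1 - cos (max t 0))| ≤ C := fun T => by
    obtain ⟨C, hC⟩ := hH (max T 1) (by positivity)
    refine ⟨C + 2, fun t ht x => ?_⟩
    have := hC (L x + max t 0 • e) (by simp [pl]) (by rw [pl]; exact max_le_max ht zero_le_one)
    rw [abs_le]
    constructor <;> linarith [this.1, this.2, cos_le_one (max t 0), neg_one_le_cos (max t 0)]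
  have S : Sl (fun t x => u (L x + max t 0 • e) - (1 - cos (max t 0)))
      (fun t x => fderiv ℝ u (L x + t • e) e - sin t)
      (fun t x => fderiv ℝ (fderiv ℝ u) (L x + t • e) e e - cos t)
      (fun t i x => fderiv ℝ u (L x + t • e) (eb i.castSucc))
      (fun t i x => fderiv ℝ (fderiv ℝ u) (L x + t • e) (eb i.castSucc) (eb i.castSucc)) := by
    refine ⟨(hc.comp_continuous (f := fun p : ℝ × Eu (Fin n) => L p.2 + max p.1 0 • e) (by fun_prop)
      fun p => by simp [pl]).sub (by fun_prop), fun x => by simpa using h0 _ (L2 x),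
      fun t ht x => ?_, bd, fun t ht x => ?_, fun t ht x => (g2 (hu' t ht x)).sub (hasDerivAt_sin t),
      fun t ht i x => ?_, fun t ht i x => ?_, fun t ht => ?_, fun t ht => ?_, fun t ht x => ?_⟩
    · obtain ⟨C, hC⟩ := hH (t + 1) (by linarith)
      rw [max_eq_left ht]
      linarith [(hC (L x + t • e) (by rwa [pl]) (by rw [pl]; linarith)).1]
    · refine (((g1 (hu' t ht x)).sub ((hasDerivAt_cos t).const_sub 1)).congr_deriv
        (by ring)).congr_of_eventuallyEq ?_
      filter_upwards [lt_mem_nhds ht] with τ hτ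
      simp [max_eq_left hτ.le]
    · have := (g1 (u := u) (q := L x + t • e) (v := eb i.castSucc) (t := 0)
        (by simpa using hu' t ht x)).sub_const (1 - cos t)
      simpa only [HasLineDerivAt, sh, max_eq_left ht.le, zero_smul, add_zero] using this
    · have := g2 (u := u) (q := L x + t • e) (v := eb i.castSucc) (t := 0) (by simpa using hu' t ht x)
      simpa only [HasLineDerivAt, sh, zero_smul, add_zero] using this
    · have := k1 (p := fun x => L x + t • e) (by fun_prop) (hu' t ht)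
      exact ⟨(this e).1.sub continuous_const, (this e).2.sub continuous_const, fun i => (this _).1,
        fun i => (this _).2⟩
    · obtain ⟨C, hC⟩ := bd (2 * t)
      obtain ⟨M, hM⟩ := hH (3 * t) (by linarith)
      obtain ⟨K, K0, hK⟩ := bnd (Fin.last n) hu he ht (M := M) fun x h1 h2 => by
        rw [abs_of_nonneg (hM x h1 h2).1]; exact (hM x h1 h2).2
      have C0 : 0 ≤ C := (abs_nonneg _).trans (hC 0 (by linarith) 0)
      have k := fun σ (hσ : σ ∈ Ioo (t / 2) (2 * t)) x => hK (L x + σ • e) (by rwa [pl])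
      refine ⟨C + K + 1, fun σ hσ => ⟨fun x => by linarith [hC σ hσ.2.le x], fun x =>
        (abs_sub _ _).trans ?_, fun x => (abs_sub _ _).trans ?_, fun i x => by
          linarith [(k σ hσ x i.castSucc).1], fun i x => by linarith [(k σ hσ x i.castSucc).2]⟩⟩
      · have := (k σ hσ x (Fin.last n)).1
        rw [← hE] at this
        linarith [abs_sin_le_one σ]
      · have := (k σ hσ x (Fin.last n)).2
        rw [← hE] at this
        linarith [abs_cos_le_one σ]
    · have := he (L x + t • e) (by rwa [pl])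
      rw [lap, Fin.sum_univ_castSucc, ← hE] at this
      rw [max_eq_left ht.le]
      linarith
  obtain ⟨x, hx⟩ := L3 y
  have := S.zero hy x
  rwa [max_eq_left hy, hE, hx, sub_eq_zero] at this

end Pool.Agent.H.MP_e4c1d4_an
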